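import Pool.Agent.helper13.Orn.Lat

/-!
# An ornamentation lattice that is not polytopal

`D` is the complete digraph on three vertices.  Its ornamentation lattice is the lattice `L` of the
`29` preorders on three points.  We show that `L` is not the transitive closure of the graph of a
polytope oriented by a linear functional.

Suppose it is.  Every edge of `P` joins comparable elements of `L`, and every cover of `L` is an
edge.  Write `M i` and `m j` for the six coatoms; for all `i, j` the interval `[M i ⊓ m j, 1]` is a
square `{x, M i, m j, 1}`.  A Gordan argument (`Orn/Rlz.lean`) shows that either the whole square is
the vertex set of a face (if `x` is not adjacent to `1`) or `{x, M i, 1}` and `{x, m j, 1}` are the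
vertex sets of faces (if `x` is adjacent to `1`).  The squares above and below the element
`{0 ~ 1, 2}` bound the dimension of `P` by four (`Orn/Dim.lean`).  So the vertex figure of `P` at `1`
is three-dimensional and its graph contains a subdivision of `K_{3,3}`.  This is impossible; we give
an elementary parity proof (`Orn/Parity.lean`, `Orn/General.lean`, `Orn/Core.lean`).
-/

namespace Pool.Agent.Results.MP_230865_co.CompleteDigraphNotPolytopal

open Pool.Agent.helper13.Orn

/-- The ornamentation lattice of the complete digraph on three vertices is not isomorphic to the
transitive closure of the graph of a convex polytope oriented by a linear functional. -/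
theorem result : ¬ IsPolytopal (Ornamentation (⟨fun a b => a ≠ b⟩ : Digraph (Fin 3))) :=
  K3_not_polytopal

end Pool.Agent.Results.MP_230865_co.CompleteDigraphNotPolytopal
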